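import Mathlib

/-! Integral transportation and decomposition of regular bipartite multigraphs. -/

namespace Pool.Agent.Lib.MP_0e8bc2_co

open Finset

open scoped Classical in
/-- Transportation lemma: a version of Hall's theorem with supplies and demands. -/
theorem transport {R C : Type*} [Fintype R] [Fintype C] [DecidableEq R] [DecidableEq C]
    (p : R → ℕ) (q : C → ℕ) (hpq : ∑ r, p r = ∑ c, q c) (adj : R → C → Prop)
    (hall : ∀ S : Finset R, ∑ r ∈ S, p r ≤
      ∑ c ∈ (univ : Finset C).filter (fun c => ∃ r ∈ S, adj r c), q c) :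
    ∃ Z : R → C → ℕ, (∀ r c, Z r c ≠ 0 → adj r c) ∧ (∀ r, ∑ c, Z r c = p r) ∧
      (∀ c, ∑ r, Z r c = q c) := by
  classical
  let t : (Σ r, Fin (p r)) → Finset (Σ c, Fin (q c)) :=
    fun x => univ.filter (fun y => adj x.1 y.1)
  have hH : ∀ s : Finset (Σ r, Fin (p r)), s.card ≤ (s.biUnion t).card := by
    intro s
    have h1 : s ⊆ (s.image Sigma.fst).sigma (fun r => (univ : Finset (Fin (p r)))) := by
      intro x hx
      rw [mem_sigma]
      exact ⟨mem_image_of_mem _ hx, mem_univ _⟩
    have h2 : (((univ : Finset C).filter (fun c => ∃ r ∈ s.image Sigma.fst, adj r c)).sigma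
        (fun c => (univ : Finset (Fin (q c))))) ⊆ s.biUnion t := by
      intro y hy
      rw [mem_sigma, mem_filter] at hy
      obtain ⟨⟨-, r, hr, hrc⟩, -⟩ := hy
      rw [mem_image] at hr
      obtain ⟨x, hx, rfl⟩ := hr
      rw [mem_biUnion]
      exact ⟨x, hx, mem_filter.2 ⟨mem_univ _, hrc⟩⟩
    calc s.card ≤ _ := card_le_card h1
      _ = ∑ r ∈ s.image Sigma.fst, p r := by rw [card_sigma]; simp
      _ ≤ _ := hall _
      _ = _ := by
          rw [show ∑ c ∈ (univ : Finset C).filter (fun c => ∃ r ∈ s.image Sigma.fst, adj r c), q c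
            = (((univ : Finset C).filter (fun c => ∃ r ∈ s.image Sigma.fst, adj r c)).sigma
              (fun c => (univ : Finset (Fin (q c))))).card by rw [card_sigma]; simp]
      _ ≤ _ := card_le_card h2
  obtain ⟨f, hinj, hf⟩ := (Finset.all_card_le_biUnion_card_iff_exists_injective t).1 hH
  have hcard : Fintype.card (Σ r, Fin (p r)) = Fintype.card (Σ c, Fin (q c)) := by
    simp [Fintype.card_sigma, hpq]
  have hbij : Function.Bijective f := (Fintype.bijective_iff_injective_and_card f).2 ⟨hinj, hcard⟩
  refine ⟨fun r c => (univ.filter (fun x : Σ r, Fin (p r) => x.1 = r ∧ (f x).1 = c)).card,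
    ?_, ?_, ?_⟩
  · intro r c h
    obtain ⟨x, hx⟩ := card_pos.1 (Nat.pos_of_ne_zero h)
    rw [mem_filter] at hx
    obtain ⟨-, rfl, rfl⟩ := hx
    exact (mem_filter.1 (hf x)).2
  · intro r
    have h1 : (univ.filter (fun x : Σ r, Fin (p r) => x.1 = r)).card = p r := by
      have : (univ.filter (fun x : Σ r, Fin (p r) => x.1 = r))
          = ({r} : Finset R).sigma (fun r => (univ : Finset (Fin (p r)))) := by
        ext x
        simp
      rw [this, card_sigma]
      simp
    rw [← h1, card_eq_sum_card_fiberwise (f := fun x => (f x).1) (t := univ)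
      (fun x _ => mem_coe.2 (mem_univ _))]
    apply sum_congr rfl
    intro c _
    rw [filter_filter]
  · intro c
    have h1 : (univ.filter (fun x : Σ r, Fin (p r) => (f x).1 = c)).card = q c := by
      have h2 : (univ.filter (fun x : Σ r, Fin (p r) => (f x).1 = c)).image f
          = ({c} : Finset C).sigma (fun c => (univ : Finset (Fin (q c)))) := by
        ext y
        simp only [mem_image, mem_filter, mem_univ, true_and, mem_sigma, mem_singleton, and_true]
        constructor
        · rintro ⟨x, hx, rfl⟩
          exact hx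
        · intro hy
          obtain ⟨x, rfl⟩ := hbij.2 y
          exact ⟨x, hy, rfl⟩
      rw [← card_image_of_injective _ hinj, h2, card_sigma]
      simp
    rw [← h1, card_eq_sum_card_fiberwise (f := fun x => x.1) (t := univ)
      (fun x _ => mem_coe.2 (mem_univ _))]
    apply sum_congr rfl
    intro r _
    rw [filter_filter]
    exact congrArg Finset.card (filter_congr (fun x _ => and_comm))

/-- one perfect matching in a regular bipartite multigraph -/
theorem exists_perfect {R C : Type*} [Fintype R] [Fintype C] [DecidableEq R] [DecidableEq C]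
    (k : ℕ) (Z : R → C → ℕ) (hr : ∀ r, ∑ c, Z r c = k + 1) (hc : ∀ c, ∑ r, Z r c = k + 1) :
    ∃ f : R → C, Function.Bijective f ∧ ∀ r, Z r (f r) ≠ 0 := by
  classical
  have hcard : Fintype.card R = Fintype.card C := by
    have h1 : ∑ r, ∑ c, Z r c = ∑ c, ∑ r, Z r c := sum_comm
    simp only [hr, hc, sum_const, card_univ, smul_eq_mul] at h1
    exact Nat.eq_of_mul_eq_mul_right (Nat.succ_pos k) h1
  let t : R → Finset C := fun r => univ.filter (fun c => Z r c ≠ 0)
  have hH : ∀ s : Finset R, s.card ≤ (s.biUnion t).card := by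
    intro s
    have h1 : s.card * (k + 1) ≤ (s.biUnion t).card * (k + 1) := by
      calc s.card * (k + 1) = ∑ r ∈ s, ∑ c, Z r c := by simp [hr]
        _ = ∑ r ∈ s, ∑ c ∈ s.biUnion t, Z r c := by
            apply sum_congr rfl
            intro r hrs
            symm
            apply sum_subset (subset_univ _)
            intro c _ hc'
            by_contra h
            exact hc' (mem_biUnion.2 ⟨r, hrs, mem_filter.2 ⟨mem_univ _, h⟩⟩)
        _ = ∑ c ∈ s.biUnion t, ∑ r ∈ s, Z r c := sum_comm
        _ ≤ ∑ c ∈ s.biUnion t, ∑ r, Z r c := by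
            apply sum_le_sum
            intro c _
            exact sum_le_sum_of_subset (subset_univ _)
        _ = (s.biUnion t).card * (k + 1) := by simp [hc]
    exact Nat.le_of_mul_le_mul_right h1 (Nat.succ_pos k)
  obtain ⟨f, hinj, hf⟩ := (Finset.all_card_le_biUnion_card_iff_exists_injective t).1 hH
  refine ⟨f, (Fintype.bijective_iff_injective_and_card f).2 ⟨hinj, hcard⟩, ?_⟩
  intro r
  exact (mem_filter.1 (hf r)).2

/-- A regular bipartite multigraph is a union of perfect matchings. -/
theorem exists_decomp {R C : Type*} [Fintype R] [Fintype C] [DecidableEq R] [DecidableEq C]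
    (k : ℕ) : ∀ (Z : R → C → ℕ), (∀ r, ∑ c, Z r c = k) → (∀ c, ∑ r, Z r c = k) →
    ∃ f : Fin k → R → C, (∀ i, Function.Bijective (f i)) ∧ (∀ i r, Z r (f i r) ≠ 0) ∧
      ∀ r c, Z r c ≠ 0 → ∃ i, f i r = c := by
  classical
  induction k with
  | zero =>
    intro Z hr _
    refine ⟨fun i => i.elim0, fun i => i.elim0, fun i => i.elim0, ?_⟩
    intro r c h
    exfalso
    have := hr r
    rw [sum_eq_zero_iff] at this
    exact h (this c (mem_univ _))
  | succ k ih =>
    intro Z hr hc
    obtain ⟨f0, hb0, hp0⟩ := exists_perfect k Z hr hc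
    obtain ⟨f, hb, hp, hcov⟩ := ih (fun r c => Z r c - if f0 r = c then 1 else 0) (by
      intro r
      have h1 : ∑ c, (Z r c - if f0 r = c then 1 else 0) + ∑ c, (if f0 r = c then 1 else 0)
          = ∑ c, Z r c := by
        rw [← sum_add_distrib]
        apply sum_congr rfl
        intro c _
        split
        · next h => subst h; have := hp0 r; omega
        · omega
      rw [hr r] at h1
      simp only [sum_ite_eq, mem_univ, if_true] at h1
      omega) (by
      intro c
      have h1 : ∑ r, (Z r c - if f0 r = c then 1 else 0) + ∑ r, (if f0 r = c then 1 else 0)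
          = ∑ r, Z r c := by
        rw [← sum_add_distrib]
        apply sum_congr rfl
        intro r _
        split
        · next h => subst h; have := hp0 r; omega
        · omega
      rw [hc c] at h1
      have h2 : ∑ r, (if f0 r = c then 1 else 0) = 1 := by
        obtain ⟨r0, hr0⟩ := hb0.2 c
        rw [sum_eq_single r0]
        · simp [hr0]
        · intro r _ hne
          rw [if_neg]
          intro h
          exact hne (hb0.1 (h.trans hr0.symm))
        · intro h; exact absurd (mem_univ _) h
      omega)
    refine ⟨Fin.cons f0 f, ?_, ?_, ?_⟩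
    · intro i
      refine Fin.cases ?_ (fun i => ?_) i
      · exact hb0
      · exact hb i
    · intro i r
      refine Fin.cases ?_ (fun i => ?_) i
      · exact hp0 r
      · simp only [Fin.cons_succ]
        have := hp i r
        omega
    · intro r c h
      by_cases h0 : f0 r = c
      · exact ⟨0, by simpa using h0⟩
      · obtain ⟨i, hi⟩ := hcov r c (by simp [h0, h])
        exact ⟨i.succ, by simpa using hi⟩

end Pool.Agent.Lib.MP_0e8bc2_co
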