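import Pool.Agent.Lib.MP_0e8bc2_co.Core

/-! Covering the edges of a bipartite graph by `k` matchings of size `m`. -/

namespace Pool.Agent.Lib.MP_0e8bc2_co

open Finset

section

variable {A B : Type*} [Fintype A] [Fintype B] [DecidableEq A] [DecidableEq B]

/-- adjacency in the auxiliary bipartite graph -/
def adjX (E : Finset (A × B)) (x y : ℕ) : A ⊕ Fin x → B ⊕ Fin y → Prop
  | Sum.inl a, Sum.inl b => (a, b) ∈ E
  | Sum.inl _, Sum.inr _ => True
  | Sum.inr _, Sum.inl _ => True
  | Sum.inr _, Sum.inr _ => False

theorem cover (E : Finset (A × B)) (m k : ℕ) (hmA : m ≤ Fintype.card A)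
    (hmB : m ≤ Fintype.card B)
    (hdA : ∀ a, (E.filter (fun e => e.1 = a)).card ≤ k)
    (hdB : ∀ b, (E.filter (fun e => e.2 = b)).card ≤ k) (hE : E.card ≤ k * m)
    (hHall : ∀ S : Finset A, ∑ a ∈ S, (k - (E.filter (fun e => e.1 = a)).card) ≤
      k * (Fintype.card A - m) + ∑ b ∈ (univ : Finset B).filter (fun b => ∃ a ∈ S, (a, b) ∈ E),
        (k - (E.filter (fun e => e.2 = b)).card)) :
    ∃ Mt : Fin k → Finset (A × B), (∀ i, Mt i ⊆ E ∧ (Mt i).card = m ∧
      (∀ e ∈ Mt i, ∀ e' ∈ Mt i, e.1 = e'.1 → e = e') ∧
      (∀ e ∈ Mt i, ∀ e' ∈ Mt i, e.2 = e'.2 → e = e')) ∧ ∀ e ∈ E, ∃ i, e ∈ Mt i := by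
  classical
  set x := Fintype.card B - m with hx
  set y := Fintype.card A - m with hy
  have hsA : ∑ a : A, (E.filter (fun e => e.1 = a)).card = E.card :=
    (card_eq_sum_card_fiberwise (f := fun e : A × B => e.1) (s := E) (t := univ)
      (fun _ _ => mem_coe.2 (mem_univ _))).symm
  have hsB : ∑ b : B, (E.filter (fun e => e.2 = b)).card = E.card :=
    (card_eq_sum_card_fiberwise (f := fun e : A × B => e.2) (s := E) (t := univ)
      (fun _ _ => mem_coe.2 (mem_univ _))).symm
  have hA1 : ∑ a : A, (k - (E.filter (fun e => e.1 = a)).card) + E.card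
      = Fintype.card A * k := by
    rw [← hsA, ← sum_add_distrib]
    rw [sum_congr rfl (fun a _ => Nat.sub_add_cancel (hdA a))]
    simp
  have hB1 : ∑ b : B, (k - (E.filter (fun e => e.2 = b)).card) + E.card
      = Fintype.card B * k := by
    rw [← hsB, ← sum_add_distrib]
    rw [sum_congr rfl (fun a _ => Nat.sub_add_cancel (hdB a))]
    simp
  have hxk : x * k + m * k = Fintype.card B * k := by
    rw [← add_mul, hx, Nat.sub_add_cancel hmB]
  have hyk : y * k + m * k = Fintype.card A * k := by
    rw [← add_mul, hy, Nat.sub_add_cancel hmA]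
  let p : A ⊕ Fin x → ℕ := Sum.elim (fun a => k - (E.filter (fun e => e.1 = a)).card) (fun _ => k)
  let q : B ⊕ Fin y → ℕ := Sum.elim (fun b => k - (E.filter (fun e => e.2 = b)).card) (fun _ => k)
  have hp : ∑ r, p r = ∑ a : A, (k - (E.filter (fun e => e.1 = a)).card) + x * k := by
    rw [Fintype.sum_sum_type]
    simp [p]
  have hq : ∑ c, q c = ∑ b : B, (k - (E.filter (fun e => e.2 = b)).card) + y * k := by
    rw [Fintype.sum_sum_type]
    simp [q]
  have hpq : ∑ r, p r = ∑ c, q c := by
    rw [hp, hq]; omega
  have hkm : k * m = m * k := mul_comm _ _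
  obtain ⟨Z0, hZadj, hZr, hZc⟩ := transport p q hpq (adjX E x y) (by
    intro S
    by_cases hl : ∃ a, Sum.inl a ∈ S
    · by_cases hr : ∃ j, Sum.inr j ∈ S
      · obtain ⟨a, ha⟩ := hl
        obtain ⟨j, hj⟩ := hr
        have : (univ : Finset (B ⊕ Fin y)).filter (fun c => ∃ r ∈ S, adjX E x y r c) = univ := by
          rw [filter_eq_self]
          intro c _
          rcases c with b | i
          · exact ⟨Sum.inr j, hj, trivial⟩
          · exact ⟨Sum.inl a, ha, trivial⟩
        rw [this, ← hpq]
        exact sum_le_sum_of_subset (subset_univ _)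
      · obtain ⟨a0, ha0⟩ := hl
        set SA : Finset A := univ.filter (fun a => Sum.inl a ∈ S) with hSA
        have hS : S = SA.map ⟨Sum.inl, Sum.inl_injective⟩ := by
          ext r
          rw [mem_map]
          constructor
          · intro hrS
            rcases r with a | j
            · exact ⟨a, mem_filter.2 ⟨mem_univ _, hrS⟩, rfl⟩
            · exact absurd ⟨j, hrS⟩ hr
          · rintro ⟨a, ha, rfl⟩
            exact (mem_filter.1 ha).2
        have h1 : ∑ r ∈ S, p r = ∑ a ∈ SA, (k - (E.filter (fun e => e.1 = a)).card) := by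
          conv_lhs => rw [hS]
          rw [sum_map]
          rfl
        rw [h1]
        refine (hHall SA).trans ?_
        have h2 : ((univ : Finset B).filter (fun b => ∃ a ∈ SA, (a, b) ∈ E)).map
              ⟨Sum.inl, Sum.inl_injective⟩ ∪
              (univ : Finset (Fin y)).map ⟨Sum.inr, Sum.inr_injective⟩
            ⊆ (univ : Finset (B ⊕ Fin y)).filter (fun c => ∃ r ∈ S, adjX E x y r c) := by
          intro c hc
          rw [mem_union, mem_map, mem_map] at hc
          rw [mem_filter]
          refine ⟨mem_univ _, ?_⟩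
          rcases hc with ⟨b, hb, rfl⟩ | ⟨j, -, rfl⟩
          · rw [mem_filter] at hb
            obtain ⟨-, a, ha, hab⟩ := hb
            exact ⟨Sum.inl a, (mem_filter.1 ha).2, hab⟩
          · exact ⟨Sum.inl a0, ha0, trivial⟩
        refine le_trans ?_ (sum_le_sum_of_subset h2)
        rw [sum_union]
        · rw [sum_map, sum_map]
          simp only [Function.Embedding.coeFn_mk, q, Sum.elim_inl, Sum.elim_inr, sum_const,
            card_univ, Fintype.card_fin, smul_eq_mul]
          rw [mul_comm k y, add_comm]
        · rw [disjoint_left]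
          intro c h3 h4
          rw [mem_map] at h3 h4
          obtain ⟨b, -, rfl⟩ := h3
          obtain ⟨j, -, hj⟩ := h4
          simp at hj
    · by_cases hr : ∃ j, Sum.inr j ∈ S
      · obtain ⟨j0, hj0⟩ := hr
        have h1 : S ⊆ (univ : Finset (Fin x)).map ⟨Sum.inr, Sum.inr_injective⟩ := by
          intro r hrS
          rcases r with a | j
          · exact absurd ⟨a, hrS⟩ hl
          · exact mem_map.2 ⟨j, mem_univ _, rfl⟩
        have h2 : (univ : Finset B).map ⟨Sum.inl, Sum.inl_injective⟩
            ⊆ (univ : Finset (B ⊕ Fin y)).filter (fun c => ∃ r ∈ S, adjX E x y r c) := by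
          intro c hc
          rw [mem_map] at hc
          obtain ⟨b, -, rfl⟩ := hc
          exact mem_filter.2 ⟨mem_univ _, Sum.inr j0, hj0, trivial⟩
        refine (sum_le_sum_of_subset h1).trans (le_trans ?_ (sum_le_sum_of_subset h2))
        rw [sum_map, sum_map]
        simp only [Function.Embedding.coeFn_mk, p, q, Sum.elim_inl, Sum.elim_inr, sum_const,
            card_univ, Fintype.card_fin, smul_eq_mul]
        omega
      · have : S = ∅ := by
          rw [eq_empty_iff_forall_notMem]
          intro r hrS
          rcases r with a | j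
          · exact hl ⟨a, hrS⟩
          · exact hr ⟨j, hrS⟩
        rw [this]
        simp)
  -- the regular multigraph
  let W : A ⊕ Fin x → B ⊕ Fin y → ℕ := fun r c =>
    match r, c with
    | Sum.inl a, Sum.inl b => if (a, b) ∈ E then 1 else 0
    | _, _ => 0
  have hWr : ∀ a, ∑ c, W (Sum.inl a) c = (E.filter (fun e => e.1 = a)).card := by
    intro a
    rw [Fintype.sum_sum_type]
    simp only [W, sum_const_zero, add_zero]
    rw [← sum_filter, sum_const, smul_eq_mul, mul_one]
    apply card_bij (fun b _ => (a, b))
    · intro b hb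
      rw [mem_filter] at hb ⊢
      exact ⟨hb.2, rfl⟩
    · intro b _ b' _ h
      exact (Prod.mk.inj h).2
    · rintro ⟨a', b⟩ h
      rw [mem_filter] at h
      obtain ⟨h1, h2⟩ := h
      simp only at h2
      subst h2
      exact ⟨b, mem_filter.2 ⟨mem_univ _, h1⟩, rfl⟩
  have hWc : ∀ b, ∑ r, W r (Sum.inl b) = (E.filter (fun e => e.2 = b)).card := by
    intro b
    rw [Fintype.sum_sum_type]
    simp only [W, sum_const_zero, add_zero]
    rw [← sum_filter, sum_const, smul_eq_mul, mul_one]
    apply card_bij (fun a _ => (a, b))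
    · intro a ha
      rw [mem_filter] at ha ⊢
      exact ⟨ha.2, rfl⟩
    · intro a _ a' _ h
      exact (Prod.mk.inj h).1
    · rintro ⟨a, b'⟩ h
      rw [mem_filter] at h
      obtain ⟨h1, h2⟩ := h
      simp only at h2
      subst h2
      exact ⟨a, mem_filter.2 ⟨mem_univ _, h1⟩, rfl⟩
  have hWr0 : ∀ j, ∑ c, W (Sum.inr j) c = 0 := by
    intro j
    rw [Fintype.sum_sum_type]
    simp [W]
  have hWc0 : ∀ j, ∑ r, W r (Sum.inr j) = 0 := by
    intro j
    rw [Fintype.sum_sum_type]
    simp [W]
  obtain ⟨f, hbij, hpos, hcov⟩ := exists_decomp k (fun r c => Z0 r c + W r c) (by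
    intro r
    rw [sum_add_distrib, hZr]
    rcases r with a | j
    · rw [hWr]
      exact Nat.sub_add_cancel (hdA a)
    · rw [hWr0 j]
      rfl) (by
    intro c
    rw [sum_add_distrib, hZc]
    rcases c with b | j
    · rw [hWc]
      exact Nat.sub_add_cancel (hdB b)
    · rw [hWc0 j]
      rfl)
  refine ⟨fun i => univ.filter (fun e : A × B => f i (Sum.inl e.1) = Sum.inl e.2), ?_, ?_⟩
  · intro i
    refine ⟨?_, ?_, ?_, ?_⟩
    · intro e he
      rw [mem_filter] at he
      have h1 := hpos i (Sum.inl e.1)
      rw [he.2] at h1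
      by_cases h2 : Z0 (Sum.inl e.1) (Sum.inl e.2) = 0
      · rw [h2, zero_add] at h1
        simp only [W] at h1
        by_contra h3
        exact h1 (if_neg h3)
      · exact hZadj _ _ h2
    · -- the number of rows which go to dummy columns
      have hg : ∀ j : Fin y, ∃ a : A, f i (Sum.inl a) = Sum.inr j := by
        intro j
        obtain ⟨r, hr⟩ := (hbij i).2 (Sum.inr j)
        rcases r with a | l
        · exact ⟨a, hr⟩
        · exfalso
          have h1 := hpos i (Sum.inr l)
          rw [hr] at h1
          have h2 : Z0 (Sum.inr l) (Sum.inr j) ≠ 0 := by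
            intro h3
            exact h1 (by simp [h3, W])
          exact hZadj _ _ h2
      choose g hg using hg
      have hginj : Function.Injective g := by
        intro j j' hjj
        have h1 := hg j
        rw [hjj, hg j'] at h1
        exact (Sum.inr_injective h1).symm
      have h1 : (univ.filter (fun e : A × B => f i (Sum.inl e.1) = Sum.inl e.2)).image Prod.fst
          = univ \ (univ : Finset (Fin y)).image g := by
        ext a
        simp only [mem_image, mem_filter, mem_univ, true_and, mem_sdiff, Prod.exists,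
          exists_and_right, exists_eq_right]
        constructor
        · rintro ⟨b, hb⟩ ⟨j, rfl⟩
          rw [hg j] at hb
          simp at hb
        · intro h2
          rcases hfa : f i (Sum.inl a) with b | j
          · exact ⟨b, rfl⟩
          · exfalso
            apply h2
            refine ⟨j, ?_⟩
            have h3 := (hbij i).1 ((hg j).trans hfa.symm)
            exact Sum.inl_injective h3
      rw [← card_image_of_injOn (f := Prod.fst), h1, card_sdiff_of_subset (subset_univ _),
        card_image_of_injective _ hginj]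
      · simp only [card_univ, Fintype.card_fin]
        omega
      · intro e he e' he' hee
        have h2 := (mem_filter.1 (mem_coe.1 he)).2
        have h3 := (mem_filter.1 (mem_coe.1 he')).2
        rw [hee, h3] at h2
        exact Prod.ext hee (Sum.inl_injective h2).symm
    · intro e he e' he' hee
      have h2 := (mem_filter.1 he).2
      have h3 := (mem_filter.1 he').2
      rw [hee, h3] at h2
      exact Prod.ext hee (Sum.inl_injective h2).symm
    · intro e he e' he' hee
      have h2 := (mem_filter.1 he).2
      have h3 := (mem_filter.1 he').2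
      rw [hee, ← h3] at h2
      exact Prod.ext (Sum.inl_injective ((hbij i).1 h2)) hee
  · rintro ⟨a, b⟩ he
    obtain ⟨i, hi⟩ := hcov (Sum.inl a) (Sum.inl b) (by simp [W, he])
    exact ⟨i, mem_filter.2 ⟨mem_univ _, hi⟩⟩

end

end Pool.Agent.Lib.MP_0e8bc2_co
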